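import Pool.Agent.H50.MFQ.SYA

/-!
# Board mfq: row SYT (the symbol of the half-density lift)
-/

set_option autoImplicit false

open Module MvPolynomial

namespace Pool.MFQ

namespace Sy

variable {𝔤 : Type} [LieRing 𝔤] [LieAlgebra ℂ 𝔤]

/-- the function of a polynomial in elements of the Lie algebra -/
noncomputable def fe {σ : Type} (y : σ → 𝔤) (φ : MvPolynomial σ ℂ) (ξ : Dual ℂ 𝔤) : ℂ :=
  eval (fun l => ξ (y l)) φ

lemma fe_mul {σ : Type} (y : σ → 𝔤) (φ ψ : MvPolynomial σ ℂ) :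
    fe y (φ * ψ) = fe y φ * fe y ψ := by
  funext ξ
  exact map_mul _ _ _

lemma hs_congr {k k' : ℕ} {u u' : UniversalEnvelopingAlgebra ℂ 𝔤} {P P' : Dual ℂ 𝔤 → ℂ}
    (h : HasSym k u P) (hk : k = k') (hu : u = u') (hP : P = P') : HasSym k' u' P' := by
  subst hk hu hP
  exact h

lemma hs_monomial {σ : Type} (y : σ → 𝔤)
    (e : MvPolynomial σ ℂ →ₐ[ℂ] UniversalEnvelopingAlgebra ℂ 𝔤)
    (he : ∀ l, e (X l) = UniversalEnvelopingAlgebra.ι ℂ (y l)) (s : σ →₀ ℕ) :
    HasSym s.degree (e (monomial s 1)) (fe y (monomial s 1)) := by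
  induction s using Finsupp.induction_linear with
  | zero =>
    refine hs_congr hs_one (by simp) ?_ ?_
    · exact (map_one e).symm
    · funext ξ
      exact (map_one (eval fun l => ξ (y l))).symm
  | add s t hs ht =>
    refine hs_congr (hs_mul hs ht) (by simp) ?_ ?_
    · rw [← map_mul, monomial_mul, one_mul]
    · rw [← fe_mul, monomial_mul, one_mul]
  | single l n =>
    induction n with
    | zero =>
      refine hs_congr hs_one (by simp) ?_ ?_
      · rw [Finsupp.single_zero]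
        exact (map_one e).symm
      · rw [Finsupp.single_zero]
        funext ξ
        exact (map_one (eval fun l => ξ (y l))).symm
    | succ n ih =>
      have h1 : (monomial (Finsupp.single l (n + 1)) (1 : ℂ)) =
          monomial (Finsupp.single l n) 1 * X l := by
        rw [X, monomial_mul, one_mul, Finsupp.single_add]
      have h2 : HasSym 1 (e (X l)) (fe y (X l)) := by
        refine hs_congr (hs_iota (y l)) rfl (he l).symm ?_
        funext ξ
        unfold fe
        rw [eval_X]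
      refine hs_congr (hs_mul ih h2) (by simp) ?_ ?_
      · rw [← map_mul, h1]
      · rw [← fe_mul, h1]

lemma hs_poly {σ : Type} (y : σ → 𝔤)
    (e : MvPolynomial σ ℂ →ₐ[ℂ] UniversalEnvelopingAlgebra ℂ 𝔤)
    (he : ∀ l, e (X l) = UniversalEnvelopingAlgebra.ι ℂ (y l)) (k : ℕ) (φ : MvPolynomial σ ℂ)
    (hφ : φ.IsHomogeneous k) : HasSym k (e φ) (fe y φ) := by
  have h1 : φ = ∑ s ∈ φ.support, coeff s φ • monomial s (1 : ℂ) := by
    rw [φ.as_sum]
    conv_rhs => rw [← φ.as_sum]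
    refine Finset.sum_congr rfl fun s _ => ?_
    rw [smul_monomial, smul_eq_mul, mul_one]
  have h2 : HasSym k (∑ s ∈ φ.support, coeff s φ • e (monomial s 1))
      (∑ s ∈ φ.support, coeff s φ • fe y (monomial s 1)) := by
    refine hs_sum _ _ _ fun s hs => hs_smul _ ?_
    refine hs_congr (hs_monomial y e he s) ?_ rfl rfl
    have h3 := hφ (mem_support_iff.mp hs)
    rw [← h3]
    exact (Finsupp.degree_eq_weight_one (R := ℕ) ▸ rfl)
  refine hs_congr h2 rfl ?_ ?_
  · conv_rhs => rw [h1]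
    rw [map_sum]
    refine Finset.sum_congr rfl fun s _ => ?_
    rw [map_smul]
  · funext ξ
    rw [Finset.sum_apply]
    conv_rhs => rw [h1]
    unfold fe
    rw [map_sum]
    refine Finset.sum_congr rfl fun s _ => ?_
    rw [Pi.smul_apply, smul_eval, smul_eq_mul]

end Sy

theorem t_syt : SYTStmt := by
  intro 𝔤 _ _ V σ τ _ _ b O _ _ he hx k P hk hP
  have h1 : HasSym k (O.e P.1) (Sy.fe (fun l => b (Sum.inl l)) P.1) :=
    Sy.hs_poly _ O.e he k P.1 hP.1
  have h2 : ∀ i ∈ (Finset.univ : Finset τ),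
      HasSym k (O.e (P.2 i) * O.x i + O.x i * O.e (P.2 i))
        ((2 : ℂ) • (Sy.fe (fun l => b (Sum.inl l)) (P.2 i) * fun ξ => ξ (b (Sum.inr i)))) := by
    intro i _
    have h3 : HasSym (k - 1) (O.e (P.2 i)) (Sy.fe (fun l => b (Sum.inl l)) (P.2 i)) :=
      Sy.hs_poly _ O.e he (k - 1) (P.2 i) (hP.2 i)
    have h4 : HasSym 1 (O.x i) (fun ξ => ξ (b (Sum.inr i))) := by
      rw [hx i]
      exact Sy.hs_iota _
    refine Sy.hs_congr (Sy.hs_add (Sy.hs_congr (Sy.hs_mul h3 h4) (Nat.sub_add_cancel hk) rfl rfl)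
      (Sy.hs_congr (Sy.hs_mul h4 h3) (Nat.add_sub_cancel' hk) rfl rfl)) rfl rfl ?_
    funext ξ
    simp only [Pi.add_apply, Pi.mul_apply, Pi.smul_apply, smul_eq_mul]
    ring
  refine Sy.hs_congr (Sy.hs_add h1 (Sy.hs_smul (2⁻¹ : ℂ) (Sy.hs_sum _ _ _ h2))) rfl rfl ?_
  funext ξ
  simp only [Pi.add_apply, Pi.smul_apply, Finset.sum_apply, Pi.mul_apply, smul_eq_mul]
  unfold evL Sy.fe
  rw [← Finset.mul_sum, ← mul_assoc, inv_mul_cancel₀ (two_ne_zero), one_mul]

end Pool.MFQ
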