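import Pool.Agent.H51.MFQ.S1

/-!
# Board mfq: rows SYA and SYT (symbols of sums, products and of the half-density lift)
-/

set_option autoImplicit false

open Module

namespace Pool.MFQ

namespace Sy

variable {𝔤 : Type} [LieRing 𝔤] [LieAlgebra ℂ 𝔤]

/-- the product of the elements of a list in the enveloping algebra -/
noncomputable def w (l : List 𝔤) : UniversalEnvelopingAlgebra ℂ 𝔤 :=
  (l.map (UniversalEnvelopingAlgebra.ι ℂ)).prod

lemma w_append (l l' : List 𝔤) : w (l ++ l') = w l * w l' := by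
  unfold w
  rw [List.map_append, List.prod_append]

lemma w_ofFn {k : ℕ} (x : Fin k → 𝔤) :
    (List.ofFn fun j => UniversalEnvelopingAlgebra.ι ℂ (x j)).prod = w (List.ofFn x) := by
  unfold w
  rw [List.map_ofFn]
  rfl

lemma w_mem {k : ℕ} {l : List 𝔤} (h : l.length < k) : w l ∈ Ulow 𝔤 k :=
  Submodule.subset_span ⟨l, h, rfl⟩

lemma ulow_mono {k l : ℕ} (h : k ≤ l) : Ulow 𝔤 k ≤ Ulow 𝔤 l := by
  refine Submodule.span_mono ?_
  rintro u ⟨t, ht, rfl⟩
  exact ⟨t, ht.trans_le h, rfl⟩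

lemma ulow_mul {a b c : ℕ} (h : ∀ i j : ℕ, i < a → j < b → i + j < c)
    {u v : UniversalEnvelopingAlgebra ℂ 𝔤} (hu : u ∈ Ulow 𝔤 a) (hv : v ∈ Ulow 𝔤 b) :
    u * v ∈ Ulow 𝔤 c := by
  refine Submodule.span_induction ?_ ?_ ?_ ?_ hu
  · rintro x ⟨t, ht, rfl⟩
    refine Submodule.span_induction ?_ ?_ ?_ ?_ hv
    · rintro y ⟨t', ht', rfl⟩
      have h1 := w_append t t'
      unfold w at h1
      rw [← h1]
      refine w_mem (k := c) ?_
      rw [List.length_append]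
      exact h _ _ ht ht'
    · rw [mul_zero]
      exact Submodule.zero_mem _
    · intro y z _ _ hy hz
      rw [mul_add]
      exact Submodule.add_mem _ hy hz
    · intro a y _ hy
      rw [mul_smul_comm]
      exact Submodule.smul_mem _ _ hy
  · rw [zero_mul]
    exact Submodule.zero_mem _
  · intro y z _ _ hy hz
    rw [add_mul]
    exact Submodule.add_mem _ hy hz
  · intro a y _ hy
    rw [smul_mul_assoc]
    exact Submodule.smul_mem _ _ hy

lemma of_fintype {I : Type} [Fintype I] {k : ℕ} {u : UniversalEnvelopingAlgebra ℂ 𝔤}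
    {P : Dual ℂ 𝔤 → ℂ} (c : I → ℂ) (x : I → Fin k → 𝔤)
    (h1 : u - ∑ i, c i • w (List.ofFn (x i)) ∈ Ulow 𝔤 k)
    (h2 : ∀ ξ : Dual ℂ 𝔤, P ξ = ∑ i, c i * ∏ j, ξ (x i j)) : HasSym k u P := by
  refine ⟨Fintype.card I, fun i => c ((Fintype.equivFin I).symm i),
    fun i => x ((Fintype.equivFin I).symm i), ?_, fun ξ => ?_⟩
  · have h3 : ∑ i, c ((Fintype.equivFin I).symm i) •
        (List.ofFn fun j => UniversalEnvelopingAlgebra.ι ℂ
          (x ((Fintype.equivFin I).symm i) j)).prod = ∑ i, c i • w (List.ofFn (x i)) := by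
      rw [← Equiv.sum_comp (Fintype.equivFin I).symm (fun i => c i • w (List.ofFn (x i)))]
      refine Finset.sum_congr rfl fun i _ => ?_
      rw [w_ofFn]
    rw [h3]
    exact h1
  · rw [h2 ξ]
    exact (Equiv.sum_comp (Fintype.equivFin I).symm (fun i => c i * ∏ j, ξ (x i j))).symm

lemma hs_elim {k : ℕ} {u : UniversalEnvelopingAlgebra ℂ 𝔤} {P : Dual ℂ 𝔤 → ℂ}
    (h : HasSym k u P) : ∃ (m : ℕ) (c : Fin m → ℂ) (x : Fin m → Fin k → 𝔤)
      (r : UniversalEnvelopingAlgebra ℂ 𝔤), r ∈ Ulow 𝔤 k ∧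
      u = (∑ i, c i • w (List.ofFn (x i))) + r ∧
      ∀ ξ : Dual ℂ 𝔤, P ξ = ∑ i, c i * ∏ j, ξ (x i j) := by
  obtain ⟨m, c, x, h1, h2⟩ := h
  refine ⟨m, c, x, _, h1, ?_, h2⟩
  have h3 : ∑ i, c i • (List.ofFn fun j => UniversalEnvelopingAlgebra.ι ℂ (x i j)).prod =
      ∑ i, c i • w (List.ofFn (x i)) := Finset.sum_congr rfl fun i _ => by rw [w_ofFn]
  rw [h3]
  abel

lemma lead_mem {k : ℕ} {I : Type} [Fintype I] (c : I → ℂ) (x : I → Fin k → 𝔤) :
    ∑ i, c i • w (List.ofFn (x i)) ∈ Ulow 𝔤 (k + 1) :=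
  Submodule.sum_mem _ fun i _ => Submodule.smul_mem _ _ (w_mem (by
    rw [List.length_ofFn]
    exact Nat.lt_succ_self k))

lemma hs_mem {k l : ℕ} {u : UniversalEnvelopingAlgebra ℂ 𝔤} {P : Dual ℂ 𝔤 → ℂ}
    (h : HasSym k u P) (hkl : k < l) : u ∈ Ulow 𝔤 l := by
  obtain ⟨m, c, x, r, hr, rfl, _⟩ := hs_elim h
  exact Submodule.add_mem _ (ulow_mono hkl (lead_mem c x)) (ulow_mono hkl.le hr)

lemma hs_mul {k l : ℕ} {u v : UniversalEnvelopingAlgebra ℂ 𝔤} {P Q : Dual ℂ 𝔤 → ℂ}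
    (hu : HasSym k u P) (hv : HasSym l v Q) : HasSym (k + l) (u * v) (P * Q) := by
  obtain ⟨m, c, x, r, hr, rfl, h2⟩ := hs_elim hu
  obtain ⟨m', c', x', r', hr', rfl, h2'⟩ := hs_elim hv
  refine of_fintype (I := Fin m × Fin m') (fun p => c p.1 * c' p.2)
    (fun p => Fin.append (x p.1) (x' p.2)) ?_ fun ξ => ?_
  · have h3 : (∑ i, c i • w (List.ofFn (x i))) * (∑ i, c' i • w (List.ofFn (x' i))) =
        ∑ p : Fin m × Fin m', (c p.1 * c' p.2) • w (List.ofFn (Fin.append (x p.1) (x' p.2))) := by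
      rw [Finset.sum_mul_sum, ← Finset.univ_product_univ, Finset.sum_product]
      refine Finset.sum_congr rfl fun i _ => Finset.sum_congr rfl fun j _ => ?_
      rw [List.ofFn_fin_append, w_append, smul_mul_smul_comm]
    have h4 : ((∑ i, c i • w (List.ofFn (x i))) + r) * ((∑ i, c' i • w (List.ofFn (x' i))) + r') -
        ∑ p : Fin m × Fin m', (c p.1 * c' p.2) • w (List.ofFn (Fin.append (x p.1) (x' p.2))) =
        (∑ i, c i • w (List.ofFn (x i))) * r' +
          r * ((∑ i, c' i • w (List.ofFn (x' i))) + r') := by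
      rw [← h3]
      noncomm_ring
    rw [h4]
    refine Submodule.add_mem _ (ulow_mul (a := k + 1) (b := l) (by omega) (lead_mem c x) hr')
      (ulow_mul (a := k) (b := l + 1) (by omega) hr ?_)
    exact Submodule.add_mem _ (lead_mem c' x') (ulow_mono (Nat.le_succ l) hr')
  · rw [Pi.mul_apply, h2 ξ, h2' ξ, Finset.sum_mul_sum, ← Finset.univ_product_univ,
      Finset.sum_product]
    refine Finset.sum_congr rfl fun i _ => Finset.sum_congr rfl fun j _ => ?_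
    rw [Fin.prod_univ_add]
    simp only [Fin.append_left, Fin.append_right]
    ring

lemma hs_add {k : ℕ} {u v : UniversalEnvelopingAlgebra ℂ 𝔤} {P Q : Dual ℂ 𝔤 → ℂ}
    (hu : HasSym k u P) (hv : HasSym k v Q) : HasSym k (u + v) (P + Q) := by
  obtain ⟨m, c, x, r, hr, rfl, h2⟩ := hs_elim hu
  obtain ⟨m', c', x', r', hr', rfl, h2'⟩ := hs_elim hv
  refine of_fintype (I := Fin m ⊕ Fin m') (Sum.elim c c') (Sum.elim x x') ?_ fun ξ => ?_
  · rw [Fintype.sum_sum_type]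
    simp only [Sum.elim_inl, Sum.elim_inr]
    have h4 : ((∑ i, c i • w (List.ofFn (x i))) + r) + ((∑ i, c' i • w (List.ofFn (x' i))) + r') -
        ((∑ i, c i • w (List.ofFn (x i))) + ∑ i, c' i • w (List.ofFn (x' i))) = r + r' := by
      abel
    rw [h4]
    exact Submodule.add_mem _ hr hr'
  · rw [Fintype.sum_sum_type]
    simp only [Sum.elim_inl, Sum.elim_inr]
    rw [Pi.add_apply, h2 ξ, h2' ξ]

lemma hs_smul {k : ℕ} (a : ℂ) {u : UniversalEnvelopingAlgebra ℂ 𝔤} {P : Dual ℂ 𝔤 → ℂ}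
    (hu : HasSym k u P) : HasSym k (a • u) (a • P) := by
  obtain ⟨m, c, x, r, hr, rfl, h2⟩ := hs_elim hu
  refine of_fintype (fun i => a * c i) x ?_ fun ξ => ?_
  · have h4 : a • ((∑ i, c i • w (List.ofFn (x i))) + r) -
        ∑ i, (a * c i) • w (List.ofFn (x i)) = a • r := by
      rw [smul_add, Finset.smul_sum]
      simp only [mul_smul]
      abel
    rw [h4]
    exact Submodule.smul_mem _ _ hr
  · rw [Pi.smul_apply, h2 ξ, smul_eq_mul, Finset.mul_sum]
    refine Finset.sum_congr rfl fun i _ => ?_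
    ring

lemma hs_one : HasSym 0 (1 : UniversalEnvelopingAlgebra ℂ 𝔤) 1 := by
  refine of_fintype (I := Unit) (fun _ => 1) (fun _ => Fin.elim0) ?_ fun ξ => ?_
  · have h4 : (1 : UniversalEnvelopingAlgebra ℂ 𝔤) -
        ∑ i : Unit, (1 : ℂ) • w (List.ofFn (Fin.elim0 : Fin 0 → 𝔤)) = 0 := by
      simp [w]
    rw [h4]
    exact Submodule.zero_mem _
  · simp

lemma hs_iota (x : 𝔤) : HasSym 1 (UniversalEnvelopingAlgebra.ι ℂ x) (fun ξ => ξ x) := by
  refine of_fintype (I := Unit) (fun _ => 1) (fun _ _ => x) ?_ fun ξ => ?_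
  · have h4 : UniversalEnvelopingAlgebra.ι ℂ x -
        ∑ i : Unit, (1 : ℂ) • w (List.ofFn (fun _ : Fin 1 => x)) = 0 := by
      simp [w]
    rw [h4]
    exact Submodule.zero_mem _
  · simp

lemma hs_add_low {k l : ℕ} {u v : UniversalEnvelopingAlgebra ℂ 𝔤} {P : Dual ℂ 𝔤 → ℂ}
    (hu : HasSym k u P) (hv : v ∈ Ulow 𝔤 l) (hl : l ≤ k) : HasSym k (u + v) P := by
  obtain ⟨m, c, x, r, hr, rfl, h2⟩ := hs_elim hu
  refine of_fintype c x ?_ h2
  have h4 : (∑ i, c i • w (List.ofFn (x i))) + r + v - ∑ i, c i • w (List.ofFn (x i)) = r + v := by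
    abel
  rw [h4]
  exact Submodule.add_mem _ hr (ulow_mono hl hv)

lemma hs_zero (k : ℕ) : HasSym k (0 : UniversalEnvelopingAlgebra ℂ 𝔤) 0 := by
  refine of_fintype (I := Empty) (fun _ => 1) (fun i => i.elim) ?_ fun ξ => ?_
  · simp
  · simp

lemma hs_sum {k : ℕ} {I : Type} (s : Finset I) (u : I → UniversalEnvelopingAlgebra ℂ 𝔤)
    (P : I → Dual ℂ 𝔤 → ℂ) (h : ∀ i ∈ s, HasSym k (u i) (P i)) :
    HasSym k (∑ i ∈ s, u i) (∑ i ∈ s, P i) := by
  classical
  induction s using Finset.induction_on with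
  | empty =>
    rw [Finset.sum_empty, Finset.sum_empty]
    exact hs_zero k
  | insert i s hi ih =>
    rw [Finset.sum_insert hi, Finset.sum_insert hi]
    exact hs_add (h i (Finset.mem_insert_self i s))
      (ih fun j hj => h j (Finset.mem_insert_of_mem hj))

end Sy

theorem t_sya : SYAStmt :=
  fun _ _ _ => ⟨fun _ _ _ _ _ _ => Sy.hs_mul, fun _ _ _ _ _ => Sy.hs_add,
    fun _ a _ _ => Sy.hs_smul a, Sy.hs_one, Sy.hs_iota, fun _ _ _ _ _ => Sy.hs_add_low,
    fun _ _ _ _ => Sy.hs_mem⟩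

end Pool.MFQ
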