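import Pool.Agent.H51.MFQ.S1

/-!
# Board mfq: row THB (the half-density lift is a Lie homomorphism)
-/

set_option autoImplicit false

open Module MvPolynomial

namespace Pool.MFQ

namespace Th

variable {σ τ : Type} [Fintype τ]

lemma key (D : τ → Derivation ℂ (MvPolynomial σ ℂ) (MvPolynomial σ ℂ)) (c : τ → τ → τ → ℂ)
    (hD : ∀ i j φ, D i (D j φ) - D j (D i φ) = ∑ k, c i j k • D k φ)
    (p q : τ → MvPolynomial σ ℂ) :
    ∑ k, D k ((∑ i, ∑ j, c i j k • (p i * q j)) + ∑ i, p i * D i (q k) - ∑ j, q j * D j (p k)) =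
      ∑ i, p i * D i (∑ j, D j (q j)) - ∑ j, q j * D j (∑ i, D i (p i)) := by
  have h1 : ∑ k, D k (∑ i, ∑ j, c i j k • (p i * q j)) =
      ∑ i, ∑ j, p i * D i (D j (q j)) + ∑ i, ∑ j, q j * D i (D j (p i)) -
        ∑ i, ∑ j, p i * D j (D i (q j)) - ∑ i, ∑ j, q j * D j (D i (p i)) := by
    have h2 : ∑ k, D k (∑ i, ∑ j, c i j k • (p i * q j)) =
        ∑ i, ∑ j, ∑ k, c i j k • D k (p i * q j) := by
      simp only [map_sum, Derivation.map_smul]
      rw [Finset.sum_comm]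
      refine Finset.sum_congr rfl fun i _ => ?_
      exact Finset.sum_comm
    have h2' : ∑ i, ∑ j, ∑ k, c i j k • D k (p i * q j) =
        ∑ i, ∑ j, (D i (D j (p i * q j)) - D j (D i (p i * q j))) := by
      refine Finset.sum_congr rfl fun i _ => Finset.sum_congr rfl fun j _ => ?_
      exact (hD i j _).symm
    rw [h2, h2']
    simp only [Derivation.leibniz, smul_eq_mul, map_add]
    rw [← Finset.sum_add_distrib, ← Finset.sum_sub_distrib, ← Finset.sum_sub_distrib]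
    refine Finset.sum_congr rfl fun i _ => ?_
    rw [← Finset.sum_add_distrib, ← Finset.sum_sub_distrib, ← Finset.sum_sub_distrib]
    refine Finset.sum_congr rfl fun j _ => ?_
    ring
  have h3 : ∑ k, D k (∑ i, p i * D i (q k)) =
      ∑ i, ∑ j, p i * D j (D i (q j)) + ∑ i, ∑ j, D j (p i) * D i (q j) := by
    simp only [map_sum]
    rw [Finset.sum_comm, ← Finset.sum_add_distrib]
    refine Finset.sum_congr rfl fun i _ => ?_
    rw [← Finset.sum_add_distrib]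
    refine Finset.sum_congr rfl fun j _ => ?_
    rw [Derivation.leibniz, smul_eq_mul, smul_eq_mul]
    ring
  have h4 : ∑ k, D k (∑ j, q j * D j (p k)) =
      ∑ i, ∑ j, q j * D i (D j (p i)) + ∑ i, ∑ j, D j (p i) * D i (q j) := by
    simp only [map_sum]
    rw [← Finset.sum_add_distrib]
    refine Finset.sum_congr rfl fun i _ => ?_
    rw [← Finset.sum_add_distrib]
    refine Finset.sum_congr rfl fun j _ => ?_
    rw [Derivation.leibniz, smul_eq_mul, smul_eq_mul]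
  have h5 : ∑ i, p i * D i (∑ j, D j (q j)) = ∑ i, ∑ j, p i * D i (D j (q j)) := by
    simp only [map_sum, Finset.mul_sum]
  have h6 : ∑ j, q j * D j (∑ i, D i (p i)) = ∑ i, ∑ j, q j * D j (D i (p i)) := by
    simp only [map_sum, Finset.mul_sum]
    rw [Finset.sum_comm]
  simp only [map_sub, map_add, Finset.sum_sub_distrib, Finset.sum_add_distrib]
  rw [h1, h3, h4, h5, h6]
  ring

variable {U : Type} [Ring U] [Algebra ℂ U] (O : Ore σ τ U)

/-- the part of degree one in the complement -/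
noncomputable def XX (p : τ → MvPolynomial σ ℂ) : U := ∑ i, O.e (p i) * O.x i

lemma xe (i : τ) (φ : MvPolynomial σ ℂ) : O.x i * O.e φ = O.e φ * O.x i + O.e (O.D i φ) := by
  rw [← O.hx i φ]
  abel

lemma ecomm (φ ψ : MvPolynomial σ ℂ) : O.e φ * O.e ψ = O.e ψ * O.e φ := by
  rw [← map_mul, mul_comm, map_mul]

lemma XX_e (p : τ → MvPolynomial σ ℂ) (φ : MvPolynomial σ ℂ) :
    XX O p * O.e φ - O.e φ * XX O p = O.e (∑ i, p i * O.D i φ) := by
  unfold XX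
  rw [Finset.sum_mul, Finset.mul_sum, ← Finset.sum_sub_distrib, map_sum]
  refine Finset.sum_congr rfl fun i _ => ?_
  rw [mul_assoc, xe, mul_add, ← mul_assoc, ← mul_assoc, ecomm O (p i) φ, map_mul]
  abel

lemma term (φ ψ : MvPolynomial σ ℂ) (i j : τ) :
    (O.e φ * O.x i) * (O.e ψ * O.x j) - (O.e ψ * O.x j) * (O.e φ * O.x i) =
      (∑ k, O.e (O.c i j k • (φ * ψ)) * O.x k) + O.e (φ * ψ * O.β i j) +
        O.e (φ * O.D i ψ) * O.x j - O.e (ψ * O.D j φ) * O.x i := by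
  have h1 : (O.e φ * O.x i) * (O.e ψ * O.x j) =
      O.e (φ * ψ) * (O.x i * O.x j) + O.e (φ * O.D i ψ) * O.x j := by
    have h : (O.e φ * O.x i) * (O.e ψ * O.x j) = O.e φ * (O.x i * O.e ψ) * O.x j := by
      noncomm_ring
    rw [h, xe, map_mul, map_mul]
    noncomm_ring
  have h2 : (O.e ψ * O.x j) * (O.e φ * O.x i) =
      O.e (φ * ψ) * (O.x j * O.x i) + O.e (ψ * O.D j φ) * O.x i := by
    have h : (O.e ψ * O.x j) * (O.e φ * O.x i) = O.e ψ * (O.x j * O.e φ) * O.x i := by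
      noncomm_ring
    rw [h, xe, mul_comm φ ψ, map_mul, map_mul]
    noncomm_ring
  have h3 : O.e (φ * ψ) * (O.x i * O.x j) - O.e (φ * ψ) * (O.x j * O.x i) =
      (∑ k, O.e (O.c i j k • (φ * ψ)) * O.x k) + O.e (φ * ψ * O.β i j) := by
    rw [← mul_sub, O.hc, mul_add, Finset.mul_sum, ← map_mul]
    refine congrArg₂ _ (Finset.sum_congr rfl fun k _ => ?_) rfl
    rw [map_smul, mul_smul_comm, smul_mul_assoc]
  rw [h1, h2, ← h3]
  abel

lemma XX_XX (p q : τ → MvPolynomial σ ℂ) :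
    XX O p * XX O q - XX O q * XX O p =
      XX O (fun k => (∑ i, ∑ j, O.c i j k • (p i * q j)) + ∑ i, p i * O.D i (q k) -
        ∑ j, q j * O.D j (p k)) + O.e (∑ i, ∑ j, p i * q j * O.β i j) := by
  have h1 : XX O p * XX O q - XX O q * XX O p =
      ∑ i, ∑ j, ((O.e (p i) * O.x i) * (O.e (q j) * O.x j) -
        (O.e (q j) * O.x j) * (O.e (p i) * O.x i)) := by
    unfold XX
    simp only [Finset.sum_sub_distrib]
    rw [Finset.sum_mul_sum, Finset.sum_mul_sum]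
    exact congrArg₂ _ rfl Finset.sum_comm
  rw [h1]
  simp only [term, Finset.sum_sub_distrib, Finset.sum_add_distrib]
  have h2 : ∑ i, ∑ j, ∑ k, O.e (O.c i j k • (p i * q j)) * O.x k =
      XX O (fun k => ∑ i, ∑ j, O.c i j k • (p i * q j)) := by
    unfold XX
    simp only [map_sum, Finset.sum_mul]
    conv_rhs => rw [Finset.sum_comm]
    refine Finset.sum_congr rfl fun i _ => ?_
    exact Finset.sum_comm
  have h3 : ∑ i, ∑ j, O.e (p i * O.D i (q j)) * O.x j =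
      XX O (fun k => ∑ i, p i * O.D i (q k)) := by
    unfold XX
    simp only [map_sum, Finset.sum_mul]
    exact Finset.sum_comm
  have h4 : ∑ i, ∑ j, O.e (q j * O.D j (p i)) * O.x i =
      XX O (fun k => ∑ j, q j * O.D j (p k)) := by
    unfold XX
    simp only [map_sum, Finset.sum_mul]
  have h5 : ∑ i, ∑ j, O.e (p i * q j * O.β i j) = O.e (∑ i, ∑ j, p i * q j * O.β i j) := by
    simp only [map_sum]
  have h6 : XX O (fun k => (∑ i, ∑ j, O.c i j k • (p i * q j)) + ∑ i, p i * O.D i (q k) -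
        ∑ j, q j * O.D j (p k)) = XX O (fun k => ∑ i, ∑ j, O.c i j k • (p i * q j)) +
        XX O (fun k => ∑ i, p i * O.D i (q k)) - XX O (fun k => ∑ j, q j * O.D j (p k)) := by
    unfold XX
    rw [← Finset.sum_add_distrib, ← Finset.sum_sub_distrib]
    refine Finset.sum_congr rfl fun k _ => ?_
    rw [map_sub, map_add, sub_mul, add_mul]
  rw [h2, h3, h4, h5, h6]
  abel

lemma th_eq (P : Lm σ τ) :
    O.th P = O.e (P.1 + (2⁻¹ : ℂ) • ∑ i, O.D i (P.2 i)) + XX O P.2 := by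
  unfold Ore.th XX
  have h1 : ∑ i, (O.e (P.2 i) * O.x i + O.x i * O.e (P.2 i)) =
      (2 : ℂ) • (∑ i, O.e (P.2 i) * O.x i) + O.e (∑ i, O.D i (P.2 i)) := by
    rw [map_sum, Finset.smul_sum, ← Finset.sum_add_distrib]
    refine Finset.sum_congr rfl fun i _ => ?_
    rw [xe, two_smul]
    abel
  rw [h1, smul_add, smul_smul, inv_mul_cancel₀ (two_ne_zero), one_smul, map_add, map_smul]
  abel

end Th

theorem t_thb : THBStmt := by
  intro σ τ U _ _ _ O P Q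
  rw [Th.th_eq, Th.th_eq, Th.th_eq]
  have h1 := Th.XX_e O P.2 (Q.1 + (2⁻¹ : ℂ) • ∑ i, O.D i (Q.2 i))
  have h2 := Th.XX_e O Q.2 (P.1 + (2⁻¹ : ℂ) • ∑ i, O.D i (P.2 i))
  have h3 := Th.XX_XX O P.2 Q.2
  have h4 := Th.ecomm O (P.1 + (2⁻¹ : ℂ) • ∑ i, O.D i (P.2 i))
    (Q.1 + (2⁻¹ : ℂ) • ∑ i, O.D i (Q.2 i))
  have h5 := Th.key O.D O.c O.hD P.2 Q.2
  have h6 : (brG O.D O.c O.β P Q).2 = fun k => (∑ i, ∑ j, O.c i j k • (P.2 i * Q.2 j)) +
      ∑ i, P.2 i * O.D i (Q.2 k) - ∑ j, Q.2 j * O.D j (P.2 k) := rfl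
  have h7 : (brG O.D O.c O.β P Q).1 = (∑ i, ∑ j, P.2 i * Q.2 j * O.β i j) +
      ∑ i, P.2 i * O.D i Q.1 - ∑ i, Q.2 i * O.D i P.1 := rfl
  rw [h7, h6, h5]
  have h8 : ∀ (p : τ → MvPolynomial σ ℂ) (φ ψ : MvPolynomial σ ℂ),
      ∑ i, p i * O.D i (φ + (2⁻¹ : ℂ) • ψ) = ∑ i, p i * O.D i φ +
        (2⁻¹ : ℂ) • ∑ i, p i * O.D i ψ := by
    intro p φ ψ
    rw [Finset.smul_sum, ← Finset.sum_add_distrib]
    refine Finset.sum_congr rfl fun i _ => ?_
    rw [map_add, Derivation.map_smul, mul_add, mul_smul_comm]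
  rw [h8] at h1 h2
  have h9 : (O.e (P.1 + (2⁻¹ : ℂ) • ∑ i, O.D i (P.2 i)) + Th.XX O P.2) *
        (O.e (Q.1 + (2⁻¹ : ℂ) • ∑ i, O.D i (Q.2 i)) + Th.XX O Q.2) -
      (O.e (Q.1 + (2⁻¹ : ℂ) • ∑ i, O.D i (Q.2 i)) + Th.XX O Q.2) *
        (O.e (P.1 + (2⁻¹ : ℂ) • ∑ i, O.D i (P.2 i)) + Th.XX O P.2) =
      (O.e (P.1 + (2⁻¹ : ℂ) • ∑ i, O.D i (P.2 i)) * O.e (Q.1 + (2⁻¹ : ℂ) • ∑ i, O.D i (Q.2 i)) -
        O.e (Q.1 + (2⁻¹ : ℂ) • ∑ i, O.D i (Q.2 i)) * O.e (P.1 + (2⁻¹ : ℂ) • ∑ i, O.D i (P.2 i))) +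
      (Th.XX O P.2 * O.e (Q.1 + (2⁻¹ : ℂ) • ∑ i, O.D i (Q.2 i)) -
        O.e (Q.1 + (2⁻¹ : ℂ) • ∑ i, O.D i (Q.2 i)) * Th.XX O P.2) -
      (Th.XX O Q.2 * O.e (P.1 + (2⁻¹ : ℂ) • ∑ i, O.D i (P.2 i)) -
        O.e (P.1 + (2⁻¹ : ℂ) • ∑ i, O.D i (P.2 i)) * Th.XX O Q.2) +
      (Th.XX O P.2 * Th.XX O Q.2 - Th.XX O Q.2 * Th.XX O P.2) := by
    noncomm_ring
  rw [h9, h1, h2, h3, h4, sub_self, zero_add]
  simp only [smul_sub, map_add, map_sub, map_smul]
  abel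

end Pool.MFQ
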